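import Pool.Agent.H39.CE.BTC

/-!
# Row BG0 of crx_modules: the base, logarithmic moment
-/

set_option autoImplicit false

open MeasureTheory ProbabilityTheory Filter Topology
open scoped ENNReal
open Pool.Agent.H95 Pool.Agent.H95.Cop Pool.Agent.H96.Cop Pool.Agent.H99.CE

namespace Pool.Agent.H39.CE

theorem lg_meas (t : ℝ) : Measurable (lg t) := by
  unfold lg
  exact (Real.measurable_log.comp (ENNReal.measurable_toReal.div_const t)).ennreal_ofReal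

theorem lg_prod {z a y : ℝ≥0∞} (ha : a ≤ 1) : lg 1 (z * (a * y)) ≤ lg 1 z + lg 1 y := by
  unfold lg
  rw [ENNReal.toReal_mul, ENNReal.toReal_mul, div_one, div_one, div_one]
  have hA : a.toReal ≤ 1 := by
    have := ENNReal.toReal_mono ENNReal.one_ne_top ha
    simpa using this
  have hA0 : 0 ≤ a.toReal := ENNReal.toReal_nonneg
  have hZ0 : 0 ≤ z.toReal := ENNReal.toReal_nonneg
  have hY0 : 0 ≤ y.toReal := ENNReal.toReal_nonneg
  by_cases h : z.toReal * (a.toReal * y.toReal) = 0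
  · rw [h, Real.log_zero, ENNReal.ofReal_zero]
    exact zero_le
  have hz : z.toReal ≠ 0 := fun h' => h (by rw [h']; ring)
  have hy : y.toReal ≠ 0 := fun h' => h (by rw [h']; ring)
  have ha' : a.toReal ≠ 0 := fun h' => h (by rw [h']; ring)
  refine le_trans (ENNReal.ofReal_le_ofReal ?_) ENNReal.ofReal_add_le
  rw [Real.log_mul hz (mul_ne_zero ha' hy), Real.log_mul ha' hy]
  have : Real.log a.toReal ≤ 0 := Real.log_nonpos hA0 hA
  linarith

theorem lg_prod1 {a y : ℝ≥0∞} (ha : a ≤ 1) : lg 1 (a * y) ≤ lg 1 y := by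
  have h := lg_prod (z := 1) (y := y) ha
  rw [one_mul] at h
  refine h.trans ?_
  have h1 : lg 1 (1 : ℝ≥0∞) = 0 := by unfold lg; simp
  rw [h1, zero_add]

theorem lg_t0 {t0 m : ℝ} {z e : ℝ≥0∞} (he : e ≤ ENNReal.ofReal m) (hm : 0 < m) (hmt : m ≤ t0) :
    lg t0 (z * e) ≤ lg 1 z := by
  unfold lg
  have ht0 : 0 < t0 := lt_of_lt_of_le hm hmt
  rw [ENNReal.toReal_mul, div_one]
  have hE : e.toReal ≤ m := ENNReal.toReal_le_of_le_ofReal hm.le he
  have hE0 : 0 ≤ e.toReal := ENNReal.toReal_nonneg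
  have hZ0 : 0 ≤ z.toReal := ENNReal.toReal_nonneg
  by_cases h : z.toReal * e.toReal = 0
  · rw [h, zero_div, Real.log_zero, ENNReal.ofReal_zero]
    exact zero_le
  apply ENNReal.ofReal_le_ofReal
  have hz : 0 < z.toReal * e.toReal := lt_of_le_of_ne (by positivity) (Ne.symm h)
  apply Real.log_le_log (by positivity)
  rw [div_le_iff₀ ht0]
  exact mul_le_mul_of_nonneg_left (hE.trans hmt) hZ0

theorem lg_low {t0 : ℝ} {x : ℝ≥0∞} (ht0 : 0 < t0) (hx : x ≤ ENNReal.ofReal t0) : lg t0 x = 0 := by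
  unfold lg
  rw [ENNReal.ofReal_eq_zero]
  have hX : x.toReal ≤ t0 := ENNReal.toReal_le_of_le_ofReal ht0.le hx
  have hX0 : 0 ≤ x.toReal := ENNReal.toReal_nonneg
  exact Real.log_nonpos (by positivity) (by rw [div_le_iff₀ ht0]; linarith)

theorem fin_ineq {δ θ α q0 : ℝ} (hδ : 0 < δ) (hδ1 : δ ≤ 1 / 20) (hαδ : 5 * α ≤ δ)
    (hθ : 1 - α ≤ θ) (hq : 0 ≤ q0) (hq1 : 128 * q0 ≤ δ) :
    (1 + δ) ^ 2 * ((1 + 16 * δ) ^ 2 * (1 + δ) ^ 4) * (1 + δ) ≤
      (1 + 100 * δ) * ((1 - δ) * θ * (1 - q0)) := by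
  have h1 : (1 + δ) ^ 7 ≤ 1 + 9 * δ := by
    have hd2 : δ ^ 2 ≤ δ / 20 := by nlinarith
    have e2 : (1 + δ) ^ 2 ≤ 1 + 2.05 * δ := by nlinarith
    have e4 : (1 + δ) ^ 4 ≤ 1 + 4.32 * δ := by
      calc (1 + δ) ^ 4 = (1 + δ) ^ 2 * (1 + δ) ^ 2 := by ring
        _ ≤ (1 + 2.05 * δ) * (1 + 2.05 * δ) := mul_le_mul e2 e2 (by positivity) (by positivity)
        _ ≤ 1 + 4.32 * δ := by nlinarith
    have e6 : (1 + δ) ^ 6 ≤ 1 + 6.9 * δ := by
      calc (1 + δ) ^ 6 = (1 + δ) ^ 4 * (1 + δ) ^ 2 := by ring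
        _ ≤ (1 + 4.32 * δ) * (1 + 2.05 * δ) := mul_le_mul e4 e2 (by positivity) (by positivity)
        _ ≤ 1 + 6.9 * δ := by nlinarith
    calc (1 + δ) ^ 7 = (1 + δ) ^ 6 * (1 + δ) := by ring
      _ ≤ (1 + 6.9 * δ) * (1 + δ) := mul_le_mul_of_nonneg_right e6 (by positivity)
      _ ≤ 1 + 9 * δ := by nlinarith
  have h2 : (1 + 16 * δ) ^ 2 ≤ 1 + 45 * δ := by nlinarith
  have h3 : (1 + δ) ^ 2 * ((1 + 16 * δ) ^ 2 * (1 + δ) ^ 4) * (1 + δ) ≤
      (1 + 9 * δ) * (1 + 45 * δ) := by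
    calc _ = (1 + δ) ^ 7 * (1 + 16 * δ) ^ 2 := by ring
      _ ≤ _ := mul_le_mul h1 h2 (by positivity) (by positivity)
  have h4 : (1 + 9 * δ) * (1 + 45 * δ) ≤ 1 + 75 * δ := by nlinarith
  have h5 : 1 - 3 * δ / 2 ≤ (1 - δ) * θ * (1 - q0) := by
    have a1 : 1 - δ / 5 ≤ θ := by linarith
    have a2 : 1 - δ / 128 ≤ 1 - q0 := by linarith
    have a3 : 1 - 1.2 * δ ≤ (1 - δ) * θ := by nlinarith
    have a4 : 0 ≤ 1 - 1.2 * δ := by linarith
    have a5 : 0 ≤ 1 - δ / 128 := by linarith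
    calc 1 - 3 * δ / 2 ≤ (1 - 1.2 * δ) * (1 - δ / 128) := by nlinarith
      _ ≤ ((1 - δ) * θ) * (1 - q0) := mul_le_mul a3 a2 a5 (by linarith)
      _ = _ := by ring
  have h6 : 1 + 75 * δ ≤ (1 + 100 * δ) * (1 - 3 * δ / 2) := by nlinarith
  have h7 : (1 + 100 * δ) * (1 - 3 * δ / 2) ≤ (1 + 100 * δ) * ((1 - δ) * θ * (1 - q0)) :=
    mul_le_mul_of_nonneg_left h5 (by positivity)
  linarith

theorem num_w {α δ q0 q1 M : ℝ} (hα : 0 < α) (hδ : 0 < δ) (hδ1 : δ ≤ 1 / 20) (hq1 : 0 ≤ q1)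
    (hq0 : 0 ≤ q0) (hqG : q0 ≤ 1 / 128) (hM : 0 < M) :
    4 * α * ((1 + δ) * M) + q0 * (M * (16 * α + 8 * q1)) + 2 * q1 * ((1 + δ) * M / (1 - q0)) ≤
      M * (16 * α + 8 * q1) := by
  have h1q : 0 < 1 - q0 := by linarith
  have h1 : (1 + δ) / (1 - q0) ≤ 1.1 := by
    rw [div_le_iff₀ h1q]; linarith
  have h3 : 4 * α * ((1 + δ) * M) + q0 * (M * (16 * α + 8 * q1)) +
      2 * q1 * ((1 + δ) * M / (1 - q0)) = M * (4 * α * (1 + δ) +
        q0 * (16 * α + 8 * q1) + 2 * q1 * ((1 + δ) / (1 - q0))) := by ring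
  rw [h3]
  refine mul_le_mul_of_nonneg_left ?_ hM.le
  have h4 : 2 * q1 * ((1 + δ) / (1 - q0)) ≤ 2 * q1 * 1.1 :=
    mul_le_mul_of_nonneg_left h1 (by positivity)
  have h5 : q0 * (16 * α + 8 * q1) ≤ 1 / 128 * (16 * α + 8 * q1) :=
    mul_le_mul_of_nonneg_right hqG (by positivity)
  have h6 : 4 * α * (1 + δ) ≤ 4 * α * 1.05 := mul_le_mul_of_nonneg_left (by linarith) (by positivity)
  linarith

theorem num_A {δ : ℝ} (hδ : 0 < δ) (hδ1 : δ ≤ 1 / 20) : (1 + 16 * δ) ^ 2 * (1 + δ) ^ 4 ≤ 4 := by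
  have h4 : (1 + 16 * δ) ^ 2 ≤ 1.8 ^ 2 := pow_le_pow_left₀ (by positivity) (by linarith) 2
  have h5 : (1 + δ) ^ 4 ≤ 1.05 ^ 4 := pow_le_pow_left₀ (by positivity) (by linarith) 4
  have h6 : (1 + 16 * δ) ^ 2 * (1 + δ) ^ 4 ≤ 1.8 ^ 2 * 1.05 ^ 4 :=
    mul_le_mul h4 h5 (by positivity) (by positivity)
  have h7 : (1.8 : ℝ) ^ 2 * 1.05 ^ 4 ≤ 4 := by norm_num
  linarith

theorem num_fin {α δ θ q0 q1 G1 ds A NN T g0 n M g R : ℝ} (hα : 0 < α) (hδ : 0 < δ)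
    (hδ1 : δ ≤ 1 / 20) (hαδ : 5 * α ≤ δ) (hθ : 1 - α ≤ θ) (hθ0 : 0 < θ) (hds : 0 < ds)
    (hq1 : 64 * α ≤ q1) (hG1 : 0 ≤ G1) (hq0 : q0 = q1 * G1) (hq00 : 0 ≤ q0) (hq : 128 * q0 ≤ δ)
    (hA : A = (1 + 16 * δ) ^ 2 * (1 + δ) ^ 4) (hNN : 0 < NN) (hT : T = n * (M * M * g))
    (hC : T ≤ A * NN) (hR : R = (1 + δ) / ((1 - δ) * θ * ds)) (hRn : 0 ≤ R)
    (hg0 : (1 + 100 * δ) / ds + 2 * δ ≤ g0) {D0 : ℝ} (hD : D0 ≤ δ * NN) :
    D0 + ((1 + δ) * n * M * (g * R) * ((1 + δ) * M / (1 - q0)) +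
      (1 + δ) * n * M * (g * G1) * (M * (16 * α + 8 * q1))) ≤ g0 * NN := by
  have hA4 : A ≤ 4 := by rw [hA]; exact num_A hδ hδ1
  have hA0 : 0 ≤ A := by rw [hA]; positivity
  have h1q : 0 < 1 - q0 := by linarith
  have h1d : 0 < 1 - δ := by linarith
  have hq10 : 0 ≤ q1 := by linarith
  have e1 : (1 + δ) * n * M * (g * R) * ((1 + δ) * M / (1 - q0)) ≤ (1 + 100 * δ) / ds * NN := by
    have e2 : (1 + δ) * n * M * (g * R) * ((1 + δ) * M / (1 - q0)) =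
        ((1 + δ) ^ 2 * R / (1 - q0)) * T := by rw [hT]; ring
    rw [e2]
    have e3 : ((1 + δ) ^ 2 * R / (1 - q0)) * T ≤ ((1 + δ) ^ 2 * R / (1 - q0)) * (A * NN) :=
      mul_le_mul_of_nonneg_left hC (by positivity)
    refine e3.trans ?_
    rw [← mul_assoc]
    refine mul_le_mul_of_nonneg_right ?_ hNN.le
    have e4 := fin_ineq hδ hδ1 hαδ hθ hq00 hq
    rw [← hA] at e4
    have e5 : (1 + δ) ^ 2 * R / (1 - q0) * A =
        ((1 + δ) ^ 2 * A * (1 + δ)) / ((1 - δ) * θ * (1 - q0)) / ds := by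
      rw [hR]
      field_simp
    rw [e5]
    refine div_le_div_of_nonneg_right ?_ hds.le
    rw [div_le_iff₀ (by positivity)]
    exact e4
  have e6 : (1 + δ) * n * M * (g * G1) * (M * (16 * α + 8 * q1)) ≤ δ * NN := by
    have e7 : (1 + δ) * n * M * (g * G1) * (M * (16 * α + 8 * q1)) =
        ((1 + δ) * G1 * (16 * α + 8 * q1)) * T := by rw [hT]; ring
    rw [e7]
    have e8 : ((1 + δ) * G1 * (16 * α + 8 * q1)) * T ≤
        ((1 + δ) * G1 * (16 * α + 8 * q1)) * (A * NN) :=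
      mul_le_mul_of_nonneg_left hC (by positivity)
    refine e8.trans ?_
    rw [← mul_assoc]
    refine mul_le_mul_of_nonneg_right ?_ hNN.le
    have e9 : G1 * (16 * α + 8 * q1) ≤ 9 * q0 := by
      have e9' : G1 * (16 * α + 8 * q1) ≤ G1 * (9 * q1) :=
        mul_le_mul_of_nonneg_left (by linarith) hG1
      rw [hq0]; linarith
    have e10 : (1 + δ) * G1 * (16 * α + 8 * q1) * A ≤ (1.05 * (9 * q0)) * 4 := by
      refine mul_le_mul ?_ hA4 hA0 (by positivity)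
      rw [mul_assoc]
      exact mul_le_mul (by linarith) e9 (by positivity) (by norm_num)
    linarith
  have e12 : ((1 + 100 * δ) / ds + 2 * δ) * NN ≤ g0 * NN :=
    mul_le_mul_of_nonneg_right hg0 hNN.le
  have e13 : ((1 + 100 * δ) / ds + 2 * δ) * NN =
      δ * NN + ((1 + 100 * δ) / ds * NN + δ * NN) := by ring
  linarith

theorem num_R {α δ θ ds : ℝ} (hα : 0 < α) (hδ : 0 < δ) (hδ1 : δ ≤ 1 / 20) (hαδ : 5 * α ≤ δ)
    (hθ : 1 - α ≤ θ) (hds : 1 ≤ ds) : (1 + δ) / ((1 - δ) * θ * ds) ≤ 2 := by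
  have h0 : 0.99 ≤ θ := by linarith
  have h1 : 0.95 * 0.99 ≤ (1 - δ) * θ := mul_le_mul (by linarith) h0 (by norm_num) (by linarith)
  have h2 : 0.95 * 0.99 * 1 ≤ (1 - δ) * θ * ds :=
    mul_le_mul h1 hds (by norm_num) (le_trans (by norm_num) h1)
  rw [div_le_iff₀ (lt_of_lt_of_le (by norm_num) h2)]
  have h3 : (0.95 : ℝ) * 0.99 * 1 = 0.9405 := by norm_num
  rw [h3] at h2
  linarith

theorem num_t {α δ : ℝ} (hα : 0 < α) (hα1 : α ≤ 1 / 4) (hδ : 0 < δ) (hδ1 : δ ≤ 1 / 20) :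
    ((1 + 16 * δ) * (1 + δ) ^ 2) * α ≤ 1 := by
  have h3 : (1 + δ) ^ 2 ≤ 1.05 ^ 2 := pow_le_pow_left₀ (by positivity) (by linarith) 2
  have h4 : (1 + 16 * δ) * (1 + δ) ^ 2 ≤ 1.8 * 1.05 ^ 2 :=
    mul_le_mul (by linarith) h3 (by positivity) (by norm_num)
  have h5 : (1 + 16 * δ) * (1 + δ) ^ 2 * α ≤ (1.8 * 1.05 ^ 2) * (1 / 4) :=
    mul_le_mul h4 hα1 hα.le (by norm_num)
  have h6 : ((1.8 : ℝ) * 1.05 ^ 2) * (1 / 4) ≤ 1 := by norm_num
  linarith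

theorem num_4 {α θ : ℝ} (hα : 0 < α) (hθ : θ ≤ 1 - α / 2) : 2 * α ^ 2 / (1 - θ) ≤ 4 * α := by
  have h0 : 0 < 1 - θ := by linarith
  rw [div_le_iff₀ h0]
  have h1 : 4 * α * (α / 2) ≤ 4 * α * (1 - θ) := mul_le_mul_of_nonneg_left (by linarith) (by positivity)
  have h2 : 4 * α * (α / 2) = 2 * α ^ 2 := by ring
  linarith

theorem pf_BG0 (hPFM : T_PFM) (hCCT : T_CCT) (hPHI : T_PHI) (hMO1 : T_MO1) (hBFM : T_BFM)
    (hBAS : T_BAS) (hLNG : T_LNG) (hVPT : T_VPT) (hMSS : T_MSS) (hEBT : T_EBT) (hSBT : T_SBT)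
    (hNNT : T_NNT) (hVTH : T_VTH) (hGHT : T_GHT) (hGMU : T_GMU) (hNAT : T_NAT) : T_BG0 := by
  intro K hK0 ν _ α σ d δ c b Nb g0 n0 n1 k hP hc hReg hk hnk hnc hEnv
  have hα := hP.α0
  have hδ := hP.δ0
  have hδ1 := hP.δ1
  have hα50 := hP.α1
  have hαq : α ≤ 1 / 4 := hα50.trans (by norm_num)
  set θ := th α σ with hθ
  have hθl : 1 - α ≤ θ := hP.tl
  have hθu' : θ ≤ 1 - α / 2 := hP.tu
  have hθu : θ < 1 := by linarith only [hθu', hα]
  have hθ0 : 0 < θ := by linarith only [hθl, hαq]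
  have hδh : δ ≤ 1 / 2 := by linarith only [hδ1]
  have hα11 : α ≤ 1 := by linarith only [hαq]
  have h1d : 0 < 1 - δ := by linarith only [hδ1]
  have hn0 : 1 ≤ n0 := by have := hP.n2; omega
  have hn0R : (0 : ℝ) < n0 := by
    have : 0 < n0 := by omega
    exact_mod_cast this
  have hn01 : (1 : ℝ) ≤ n0 := by exact_mod_cast hn0
  have hk0 : (0 : ℝ) < k := by exact_mod_cast hk
  set m : ℝ := mb α c δ k with hm
  have hm0 : 0 < m := mb_pos hα hδ hc hk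
  set Z : ℝ := Zq α c k with hZ
  have hZ0 : 0 < Z := Zq_pos hc hk
  set gg : ℝ := gq α δ c k with hgg
  have hgg0 : 0 < gg := gq_pos hδ hc hk
  set q1 : ℝ := 64 * α + 2 ^ 23 * α ^ 2 * (1 + Real.log n0) with hq1
  set G1 : ℝ := 6 + 2 * Real.log (1 / kp α σ d δ) with hG1
  have hln : 0 ≤ Real.log n0 := Real.log_nonneg (by exact_mod_cast hn0)
  have hq10 : 0 ≤ q1 := by positivity
  have hq1α : 64 * α ≤ q1 := by
    rw [hq1]
    have : 0 ≤ 2 ^ 23 * α ^ 2 * (1 + Real.log n0) := by positivity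
    exact le_add_of_nonneg_right this
  have hdσ := hP.dσ
  have hdσ0 : 0 < d - σ := by linarith only [hdσ]
  have hdσ' : σ < d := by linarith only [hdσ]
  have hkp0 : 0 < kp α σ d δ := by
    unfold kp
    positivity
  have hG16 : 6 ≤ G1 := by
    have : 0 ≤ Real.log (1 / kp α σ d δ) := Real.log_nonneg (by
      rw [le_div_iff₀ hkp0, one_mul]; exact hP.kp1)
    rw [hG1]; linarith only [this]
  have hG10 : 0 ≤ G1 := by linarith only [hG16]
  set q0 : ℝ := q1 * G1 with hq0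
  have hq00 : 0 ≤ q0 := by positivity
  have hqG' : 128 * q0 ≤ δ := by have := hP.a5; rw [← hq1, ← hG1] at this; exact this
  have hqG : q0 ≤ 1 / 128 := by linarith only [hqG', hδ1]
  set R : ℝ := (1 + δ) / ((1 - δ) * θ * (d - σ)) with hR
  have hRden : 0 < (1 - δ) * θ * (d - σ) := by
    positivity
  have hR0 : 0 ≤ R := by positivity
  have hR2 : R ≤ 2 := by
    exact num_R hα hδ hδ1 hP.αδ hθl hdσ
  -- the basic bounds of the sums
  have hS := hMSS K hK0 α c δ b n1 k n0 hα hP.αδ hc hδ hδ1 hReg hk hnk hnc hEnv.b0 hEnv.bk hP.n2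
    hP.a1
  have hV := hVPT K hK0 α c δ b n1 k n0 hα hα50 hc hδ hδ1 hReg hk hnk hnc hEnv.b0 hEnv.bk hn0
  have hE := hEBT (Vb K n0 k b) m α θ δ n0 hα hP.αδ hδ1 hθl hθu hm0 hP.n2 hP.a2 hS
  have hSb := hSBT (Vb K n0 k b) m α θ δ n0 hα hP.αδ hδ1 hθl hθu hm0 hP.n2 hP.a2 hS
  have hNN := hNNT (Vb K n0 k b) m α θ δ n0 hα hP.αδ hδ1 hθl hθu hm0 hP.n2 hP.a2 hS
  have hsg : (1 + α) * θ = 1 + sg α σ := by
    rw [hθ]; unfold th sg
    have : 1 + α ≠ 0 := by positivity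
    field_simp
  have hsg0 : 0 < sg α σ := by
    unfold sg; have := hP.σ0; positivity
  have hVt := hVTH (Vb K n0 k b) m Z α θ (sg α σ) δ n0 hα hα50 hP.αδ hδ1 hθl hθu hsg hsg0 hZ0 hm0
    (mb_le hα hδ hδ1 hc hk) hP.n2 hP.a2 hS (by simpa [hZ, Zq] using hV.1)
    (by simpa [hZ, Zq] using hV.2)
  have hGh := hGHT ν α σ d δ c b n0 k hα hα11 hP.σ0 hθ0 hc hδ hδh
    hdσ' hk hn0 hP.kp1 hP.a3 hEnv
  have hGm := hGMU ν α σ d δ c b k hα hα11 hP.σ0 hθ0 hc hδ hδh hdσ' hk hEnv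
  have hVf : ∀ a, Vb K n0 k b a ≠ ∞ := by
    intro a
    rcases Nat.eq_zero_or_pos a with h | h
    · subst h; exact ne_top_of_le_ne_top ENNReal.ofReal_ne_top hV.1
    · exact ne_top_of_le_ne_top ENNReal.ofReal_ne_top (hV.2 a h)
  have hVm : ∀ a, Vb K n0 k b a ≤ ENNReal.ofReal m := by
    intro a
    refine le_trans ?_ (hS (a + 1))
    refine le_trans ?_ (Finset.single_le_sum (f := fun a => Vb K n0 k b a *
      ENNReal.ofReal ((n0 : ℝ) ^ (α * a / n0))) (fun _ _ => zero_le)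
      (Finset.mem_range.mpr (Nat.lt_succ_self a)))
    have h1 : (1 : ℝ≥0∞) ≤ ENNReal.ofReal ((n0 : ℝ) ^ (α * a / n0)) := by
      rw [← ENNReal.ofReal_one]
      exact ENNReal.ofReal_le_ofReal (Real.one_le_rpow hn01 (by positivity))
    calc Vb K n0 k b a = Vb K n0 k b a * 1 := (mul_one _).symm
      _ ≤ _ := mul_le_mul' le_rfl h1
  have hgdl : ∀ D, gd α c δ k D ≤ ENNReal.ofReal gg := by
    intro D
    unfold gd
    apply ENNReal.ofReal_le_ofReal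
    have h1 : wq α D ≤ 1 := by
      unfold wq
      apply Real.rpow_le_one_of_one_le_of_nonpos
      · exact_mod_cast le_max_right _ _
      · linarith only [hα]
    have h2 : 0 ≤ wq α D := by unfold wq; positivity
    calc (1 + δ) * c / 2 * (k : ℝ) ^ (-(1 + α)) * wq α D ≤
        (1 + δ) * c / 2 * (k : ℝ) ^ (-(1 + α)) * 1 :=
          mul_le_mul_of_nonneg_left h1 (by positivity)
      _ = gg := by rw [mul_one]; rfl
  have hprod1 : ∀ (a : ℝ≥0∞) (D : ℕ), a ≤ ENNReal.ofReal m → a * gd α c δ k D ≤ 1 := by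
    intro a D ha
    refine (mul_le_mul' ha (hgdl D)).trans ?_
    rw [← ENNReal.ofReal_mul hm0.le, ← ENNReal.ofReal_one]
    exact ENNReal.ofReal_le_ofReal (mg_le hα hαq hδ hδ1 hc hk)
  have hgl : ∀ D m : ℕ, 1 ≤ D → k < m → (D - 1) * k < m → m < (D + 1) * k →
      pk K m * 2⁻¹ ≤ gd α c δ k D := hLNG K α c δ n1 k hα hc hδ hReg hk hnk
  have hWR0 := (hPFM.2 K).2 (n0 * k) k
  have hNXm := (hPFM.1 _ hWR0).2.2
  -- the threshold
  set t0 : ℝ := tb α c δ (n0 * k) with ht0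
  have hci : 0 < (cq c δ)⁻¹ := inv_pos.mpr (cq_pos hδ hc)
  have ht00 : 0 < t0 := by
    rw [ht0]; unfold tb
    push_cast
    have := cq_pos hδ hc
    positivity
  have hnmt : n0 * m ≤ t0 := by
    rw [ht0, hm, mb_eq hδ hc]
    unfold tb
    push_cast
    rw [Real.mul_rpow hn0R.le hk0.le, div_eq_mul_inv]
    have h1 : (n0 : ℝ) ≤ (n0 : ℝ) ^ (1 + α) := by
      calc (n0 : ℝ) = (n0 : ℝ) ^ (1 : ℝ) := (Real.rpow_one _).symm
        _ ≤ _ := Real.rpow_le_rpow_of_exponent_le hn01 (by linarith only [hα])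
    have h2 : ((1 + 16 * δ) * (1 + δ) ^ 2) * α ≤ 1 := num_t hα hαq hδ hδ1
    have h5 : 0 < (k : ℝ) ^ (1 + α) := by positivity
    calc (n0 : ℝ) * ((1 + 16 * δ) * (1 + δ) ^ 2 * α * (k : ℝ) ^ (1 + α) * (cq c δ)⁻¹)
        = (n0 * (((1 + 16 * δ) * (1 + δ) ^ 2) * α)) * ((k : ℝ) ^ (1 + α) * (cq c δ)⁻¹) := by ring
      _ ≤ ((n0 : ℝ) ^ (1 + α) * 1) * ((k : ℝ) ^ (1 + α) * (cq c δ)⁻¹) := by
          refine mul_le_mul_of_nonneg_right ?_ (by positivity)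
          exact mul_le_mul h1 h2 (by positivity) (by positivity)
      _ = (n0 : ℝ) ^ (1 + α) * (k : ℝ) ^ (1 + α) * (cq c δ)⁻¹ := by ring
  have hmt : m ≤ t0 := by
    refine le_trans ?_ hnmt
    calc m = 1 * m := (one_mul m).symm
      _ ≤ n0 * m := mul_le_mul_of_nonneg_right hn01 hm0.le
  -- the function
  have hphi : ∀ x : ℝ≥0∞, x ≠ ∞ → ENNReal.ofReal (α ^ 2) * Gf t0 θ x ≤
      x ^ θ * (ENNReal.ofReal (α ^ 2) * lg t0 x + ENNReal.ofReal (4 * α)) := by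
    intro x hx
    have h1 := hPHI t0 t0 θ (α ^ 2) x ht00 le_rfl hθ0 hθu (sq_nonneg α) hx
    refine le_trans (le_self_add.trans h1) ?_
    refine mul_le_mul' le_rfl (add_le_add_right (ENNReal.ofReal_le_ofReal ?_) _)
    exact num_4 hα hθu'
  have hCc : Cc fun x => ENNReal.ofReal (α ^ 2) * Gf t0 θ x := by
    have h1 := hCCT.2.2 (Gf t0 θ) (fun x => x ^ θ) (hCCT.2.1 t0 θ ht00 hθ0 hθu).2
      (hCCT.1 θ hθ0 hθu) (ENNReal.ofReal (α ^ 2)) 0 ENNReal.ofReal_ne_top ENNReal.zero_ne_top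
    simpa using h1
  set u : ℝ≥0∞ → ℝ≥0∞ := fun z => ENNReal.ofReal (α ^ 2) * lg 1 z with hu
  have hum : Measurable u := (lg_meas 1).const_mul _
  -- the constants
  set Es : ℝ≥0∞ := ENNReal.ofReal ((1 + δ) * m ^ θ) with hEs
  set qq : ℝ≥0∞ := ENNReal.ofReal q0 with hqq
  set v : ℝ≥0∞ := ENNReal.ofReal ((1 + δ) * m ^ θ / (1 - q0)) with hv
  set w : ℝ≥0∞ := ENNReal.ofReal (m ^ θ * (16 * α + 8 * q1)) with hw
  set qu : ℝ≥0∞ := ENNReal.ofReal (2 * q1) with hqu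
  have hmθ : 0 < m ^ θ := by positivity
  have h1q : 0 < 1 - q0 := by linarith only [hqG]
  have hEv : Es + qq * v ≤ v := by
    rw [hEs, hqq, hv, ← ENNReal.ofReal_mul hq00, ← ENNReal.ofReal_add (by positivity)
      (by positivity)]
    apply ENNReal.ofReal_le_ofReal
    apply le_of_eq
    field_simp
    ring
  have hEw : ENNReal.ofReal (4 * α) * Es + qq * w + qu * v ≤ w := by
    rw [hEs, hqq, hv, hw, hqu, ← ENNReal.ofReal_mul (by positivity), ← ENNReal.ofReal_mul hq00,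
      ← ENNReal.ofReal_mul (by positivity), ← ENNReal.ofReal_add (by positivity) (by positivity),
      ← ENNReal.ofReal_add (by positivity) (by positivity)]
    apply ENNReal.ofReal_le_ofReal
    exact num_w hα hδ hδ1 hq10 hq00 hqG hmθ
  have hVt1 : ∀ L, ∑ a ∈ Finset.range L, 1 * Vb K n0 k b a ^ θ ≤ ENNReal.ofReal (Z ^ θ * q1) := by
    intro L
    refine le_trans (Finset.sum_le_sum fun a _ => ?_) (hVt L)
    exact mul_le_mul' (om_one_le _) le_rfl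
  have hGh1 : ∀ L, ∑ D ∈ Finset.Icc 1 L, 1 * (gd α c δ k D ^ θ *
      ∫⁻ x, ex 0 ((D - 1) * k) x ^ θ ∂(iid ν)) ≤ ENNReal.ofReal (gg ^ θ * G1) := by
    intro L
    refine le_trans (Finset.sum_le_sum fun a _ => ?_) (hGh L)
    exact mul_le_mul' (om_one_le _) le_rfl
  have hGm1 : ∀ L, ∑ D ∈ Finset.Icc 1 L, 1 * (gd α c δ k D ^ θ *
      ∫⁻ x, ex 0 ((D - 1) * k) x ^ θ * u (ex 0 ((D - 1) * k) x) ∂(iid ν)) ≤
      ENNReal.ofReal (gg ^ θ * R) := by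
    intro L
    simp only [one_mul]
    exact hGm L
  have hZg := Zg_le (α := α) hδ hδ1 hc hk hθ0.le
  rw [← hZ, ← hgg] at hZg
  have hqsum : ∀ J : ℕ, ∑ i ∈ Finset.range (J * n0), ∑ D ∈ Finset.Icc 1 (J * n0),
      1 * ((Vb K n0 k b i * gd α c δ k D) ^ θ *
        ∫⁻ x, ex 0 ((D - 1) * k) x ^ θ ∂(iid ν)) ≤ qq := by
    intro J
    refine (dbl _ _ _ (fun _ _ => 1) (fun _ => 1)
      (fun _ => 1) (Vb K n0 k b) (gd α c δ k) _ θ hθ0.le (fun _ _ => by simp) _ _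
      (hVt1 (J * n0)) (hGh1 (J * n0))).trans ?_
    rw [hqq, ← ENNReal.ofReal_mul (by positivity)]
    apply ENNReal.ofReal_le_ofReal
    calc Z ^ θ * q1 * (gg ^ θ * G1) = (Z ^ θ * gg ^ θ) * q0 := by rw [hq0]; ring
      _ ≤ 1 * q0 := mul_le_mul_of_nonneg_right hZg hq00
      _ = q0 := one_mul _
  have hqusum : ∀ J : ℕ, ∑ i ∈ Finset.range (J * n0), ∑ D ∈ Finset.Icc 1 (J * n0),
      1 * ((Vb K n0 k b i * gd α c δ k D) ^ θ *
        ∫⁻ x, ex 0 ((D - 1) * k) x ^ θ * u (ex 0 ((D - 1) * k) x) ∂(iid ν)) ≤ qu := by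
    intro J
    refine (dbl _ _ _ (fun _ _ => 1) (fun _ => 1)
      (fun _ => 1) (Vb K n0 k b) (gd α c δ k) _ θ hθ0.le (fun _ _ => by simp) _ _
      (hVt1 (J * n0)) (hGm1 (J * n0))).trans ?_
    rw [hqu, ← ENNReal.ofReal_mul (by positivity)]
    apply ENNReal.ofReal_le_ofReal
    calc Z ^ θ * q1 * (gg ^ θ * R) = (Z ^ θ * gg ^ θ) * (q1 * R) := by ring
      _ ≤ 1 * (q1 * R) := mul_le_mul_of_nonneg_right hZg (by positivity)
      _ = q1 * R := one_mul _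
      _ ≤ q1 * 2 := mul_le_mul_of_nonneg_left hR2 hq10
      _ = 2 * q1 := mul_comm _ _
  have hBH : ∀ J : ℕ, BH ν k n0 J (NX (w0 K (n0 * k) k) k true false)
      (NX (w0 K (n0 * k) k) k true true) (gd α c δ k)
      (fun j => CT (NX (w1 K (n0 * k)) k true false) (TT n0 j)) (Vb K n0 k b)
      (fun x => ENNReal.ofReal (α ^ 2) * Gf t0 θ x) θ u u (ENNReal.ofReal (4 * α))
      (ENNReal.ofReal m) (fun _ => 1) Es qq qu v w := by
    intro J
    refine ⟨hk, hn0, ?_, fun a => nx_bd hMO1 K hEnv.b0 hEnv.mo1 _ _ a,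
      fun a => nx_bd hMO1 K hEnv.b0 hEnv.mo1 _ _ a, hVf, fun D => ENNReal.ofReal_ne_top,
      hCc, hθ0, hθu, hum, hum, ?_, ?_, fun _ => le_rfl, fun _ => ENNReal.one_ne_top,
      monotone_const, fun _ _ => by simp, ?_, ?_, hqsum J, hqusum J, hEv, hEw⟩
    · intro j hj
      exact (hBFM K n0 k (gd α c δ k) hk hn0 hgl J j hj).1
    · intro z e hz he
      have hze : z * e ≠ ∞ :=
        ENNReal.mul_ne_top hz (ne_top_of_le_ne_top ENNReal.ofReal_ne_top he)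
      refine (hphi _ hze).trans ?_
      refine mul_le_mul' le_rfl (add_le_add_left ?_ _)
      exact mul_le_mul' le_rfl (lg_t0 he hm0 hmt)
    · intro z i D y _ _
      have h1 := lg_prod (z := z) (y := y) (hprod1 _ D (hVm i))
      rw [hu]
      dsimp only
      rw [← mul_add]
      exact mul_le_mul' le_rfl h1
    · intro p j _
      exact hE.1 j p
    · intro p
      simpa using hE.2.1 J p
  -- the bound of the sums
  have hna0 : 0 < na α σ c δ k (n0 * k) := by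
    rw [na_eq hα hP.σ0 hδ hc hk]
    positivity
  have hg00 : 0 ≤ g0 := by
    have h1 := hP.b3
    have h2 : 0 ≤ (1 + 100 * δ) / (d - σ) + 2 * δ := by positivity
    exact h2.trans h1
  have hmain : ∀ J : ℕ, ∑ j ∈ Finset.range J,
      ∫⁻ x, ENNReal.ofReal (α ^ 2) * Gf t0 θ (BX (w1 K (n0 * k)) (n0 * k) j x) ∂(iid ν) ≤
      ENNReal.ofReal (g0 * na α σ c δ k (n0 * k)) := by
    intro J
    have h1 := hBAS ν k n0 J _ _ _ _ _ _ θ _ _ _ _ (fun _ => 1) Es qq qu v w (hBH J)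
      (NX (w0 K (n0 * k) k) k false false) (NX (w0 K (n0 * k) k) k false true)
      (fun j => BX (w1 K (n0 * k)) (n0 * k) j) (fun a => (hNXm k false false a).1)
      (fun a => hNXm k false true a) (fun a => nx_bd hMO1 K hEnv.b0 hEnv.mo1 _ _ a)
      (fun a => nx_bd hMO1 K hEnv.b0 hEnv.mo1 _ _ a)
      (fun j hj x => (hBFM K n0 k (gd α c δ k) hk hn0 hgl J j hj).2 x)
      (fun i D y _ => by
        rw [hu]
        exact mul_le_mul' le_rfl (lg_prod1 (hprod1 _ D (hSb.1 i))))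
      (ENNReal.ofReal ((1 + δ) * n0 * m ^ θ) * ENNReal.ofReal (gg ^ θ * G1))
      (ENNReal.ofReal ((1 + δ) * n0 * m ^ θ) * ENNReal.ofReal (gg ^ θ * R))
      (dbl _ _ _ (fun _ _ => 1) (fun _ => 1) (fun _ => 1)
        (sb (Vb K n0 k b) n0) (gd α c δ k) _ θ hθ0.le (fun _ _ => by simp) _ _
        (by simpa using hSb.2.1 (J * n0)) (hGh1 (J * n0)))
      (dbl _ _ _ (fun _ _ => 1) (fun _ => 1) (fun _ => 1)
        (sb (Vb K n0 k b) n0) (gd α c δ k) _ θ hθ0.le (fun _ _ => by simp) _ _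
        (by simpa using hSb.2.1 (J * n0)) (hGm1 (J * n0)))
    simp only [one_mul] at h1
    refine h1.trans ?_
    -- the neutral part
    have h2 : ∑ j ∈ Finset.range J, ENNReal.ofReal (α ^ 2) *
        Gf t0 θ (∑ c ∈ Finset.range n0, eT (Vb K n0 k b) (TT n0 j) c) ≤
        ENNReal.ofReal (4 * (n0 * m) ^ θ) := by
      refine le_trans (Finset.sum_le_sum fun j _ => ?_) (hNN.2 J)
      have h3 := hNN.1 j
      set Sj := ∑ c ∈ Finset.range n0, eT (Vb K n0 k b) (TT n0 j) c with hSj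
      have h4 : Sj ≠ ∞ := ne_top_of_le_ne_top ENNReal.ofReal_ne_top h3
      refine (hphi Sj h4).trans ?_
      rw [lg_low ht00 (h3.trans (ENNReal.ofReal_le_ofReal hnmt)), mul_zero, zero_add]
      have h5 : ENNReal.ofReal (4 * α) ≤ om j := by
        refine le_trans ?_ (om_one_le j)
        rw [← ENNReal.ofReal_one]
        exact ENNReal.ofReal_le_ofReal (by linarith only [hαq])
      calc Sj ^ θ * ENNReal.ofReal (4 * α) ≤ Sj ^ θ * om j := mul_le_mul' le_rfl h5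
        _ = om j * Sj ^ θ := mul_comm _ _
    refine (add_le_add_left h2 _).trans ?_
    rw [hv, hw, ← ENNReal.ofReal_mul (by positivity), ← ENNReal.ofReal_mul (by positivity),
      ← ENNReal.ofReal_mul (by positivity), ← ENNReal.ofReal_mul (by positivity),
      ← ENNReal.ofReal_add (by positivity) (by positivity),
      ← ENNReal.ofReal_add (by positivity) (by positivity)]
    apply ENNReal.ofReal_le_ofReal
    have hC := numC hP hc hk
    have hD := numD hP hc hk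
    rw [← hθ, ← hm, ← hgg] at hC
    rw [← hθ, ← hm] at hD
    exact num_fin hα hδ hδ1 hP.αδ hθl hθ0 hdσ0 hq1α hG10 hq0 hq00 hqG' rfl hna0 rfl hC rfl hR0
      hP.b3 hD
  unfold QG
  apply ENNReal.div_le_of_le_mul
  rw [← ENNReal.ofReal_mul hg00, ← ENNReal.tsum_mul_left]
  refine ENNReal.tsum_le_of_sum_range_le fun J => ?_
  refine le_trans (Finset.sum_le_sum fun j _ => ?_) (hmain J)
  rw [lintegral_const_mul' _ _ ENNReal.ofReal_ne_top]

end Pool.Agent.H39.CE
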