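import Pool.Agent.H39.CE.BTC

/-!
# Row BT0 of crx_modules: the base, total moments
-/

set_option autoImplicit false

open MeasureTheory ProbabilityTheory Filter Topology
open scoped ENNReal
open Pool.Agent.H95 Pool.Agent.H95.Cop Pool.Agent.H96.Cop Pool.Agent.H99.CE

namespace Pool.Agent.H39.CE

theorem pf_BT0 (hPFM : T_PFM) (hCCT : T_CCT) (hMO1 : T_MO1) (hBFM : T_BFM) (hBAS : T_BAS)
    (hLNG : T_LNG) (hVPT : T_VPT) (hMSS : T_MSS) (hEBT : T_EBT) (hSBT : T_SBT) (hNNT : T_NNT)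
    (hVTH : T_VTH) (hGHT : T_GHT) (hNAT : T_NAT) : T_BT0 := by
  intro K hK0 ν _ α σ d δ c b Nb g0 n0 n1 k hP hc hReg hk hnk hnc hEnv
  have hα := hP.α0
  have hδ := hP.δ0
  have hδ1 := hP.δ1
  have hα50 := hP.α1
  have h50 : (1 : ℝ) / 2 ^ 50 ≤ 1 / 4 := by norm_num
  have hαq : α ≤ 1 / 4 := hα50.trans h50
  set θ := th α σ with hθ
  have hθl : 1 - α ≤ θ := hP.tl
  have hθu : θ < 1 := by have := hP.tu; linarith
  have hθ0 : 0 < θ := by linarith
  have hn0 : 1 ≤ n0 := by have := hP.n2; omega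
  have hn0R : (0 : ℝ) < n0 := by
    have : 0 < n0 := by omega
    exact_mod_cast this
  set m : ℝ := mb α c δ k with hm
  have hm0 : 0 < m := mb_pos hα hδ hc hk
  set Z : ℝ := Zq α c k with hZ
  have hZ0 : 0 < Z := Zq_pos hc hk
  set gg : ℝ := gq α δ c k with hgg
  have hgg0 : 0 < gg := gq_pos hδ hc hk
  set q1 : ℝ := 64 * α + 2 ^ 23 * α ^ 2 * (1 + Real.log n0) with hq1
  set G1 : ℝ := 6 + 2 * Real.log (1 / kp α σ d δ) with hG1
  have hln : 0 ≤ Real.log n0 := Real.log_nonneg (by exact_mod_cast hn0)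
  have hq10 : 0 ≤ q1 := by positivity
  have hkp0 : 0 < kp α σ d δ := by
    unfold kp
    have h1 : 0 < 1 - δ := by linarith
    have h2 : 0 < d - σ := by have := hP.dσ; linarith
    positivity
  have hG10 : 0 ≤ G1 := by
    have : 0 ≤ Real.log (1 / kp α σ d δ) := Real.log_nonneg (by
      rw [le_div_iff₀ hkp0]; have := hP.kp1; linarith)
    positivity
  have hqG : q1 * G1 ≤ 1 / 128 := by have := hP.a5; rw [← hq1, ← hG1] at this; linarith
  -- the basic bounds of the sums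
  have hS := hMSS K hK0 α c δ b n1 k n0 hα hP.αδ hc hδ hδ1 hReg hk hnk hnc hEnv.b0 hEnv.bk hP.n2
    hP.a1
  have hV := hVPT K hK0 α c δ b n1 k n0 hα hα50 hc hδ hδ1 hReg hk hnk hnc hEnv.b0 hEnv.bk hn0
  have hE := hEBT (Vb K n0 k b) m α θ δ n0 hα hP.αδ hδ1 hθl hθu hm0 hP.n2 hP.a2 hS
  have hSb := hSBT (Vb K n0 k b) m α θ δ n0 hα hP.αδ hδ1 hθl hθu hm0 hP.n2 hP.a2 hS
  have hNN := hNNT (Vb K n0 k b) m α θ δ n0 hα hP.αδ hδ1 hθl hθu hm0 hP.n2 hP.a2 hS
  have hsg : (1 + α) * θ = 1 + sg α σ := by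
    rw [hθ]; unfold th sg
    have : 1 + α ≠ 0 := by positivity
    field_simp
  have hsg0 : 0 < sg α σ := by
    unfold sg; have := hP.σ0; positivity
  have hVt := hVTH (Vb K n0 k b) m Z α θ (sg α σ) δ n0 hα hα50 hP.αδ hδ1 hθl hθu hsg hsg0 hZ0 hm0
    (mb_le hα hδ hδ1 hc hk) hP.n2 hP.a2 hS (by simpa [hZ, Zq] using hV.1)
    (by simpa [hZ, Zq] using hV.2)
  have hGh := hGHT ν α σ d δ c b n0 k hα (by linarith) hP.σ0 hθ0 hc hδ (by linarith)
    (by have := hP.dσ; linarith) hk hn0 hP.kp1 hP.a3 hEnv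
  have hVf : ∀ a, Vb K n0 k b a ≠ ∞ := by
    intro a
    rcases Nat.eq_zero_or_pos a with h | h
    · subst h; exact ne_top_of_le_ne_top ENNReal.ofReal_ne_top hV.1
    · exact ne_top_of_le_ne_top ENNReal.ofReal_ne_top (hV.2 a h)
  have hgl : ∀ D m : ℕ, 1 ≤ D → k < m → (D - 1) * k < m → m < (D + 1) * k →
      pk K m * 2⁻¹ ≤ gd α c δ k D := hLNG K α c δ n1 k hα hc hδ hReg hk hnk
  have hWR0 := (hPFM.2 K).2 (n0 * k) k
  have hNXm := (hPFM.1 _ hWR0).2.2
  -- the constants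
  set Es : ℝ≥0∞ := ENNReal.ofReal (4 * m ^ θ) with hEs
  set qq : ℝ≥0∞ := ENNReal.ofReal (q1 * G1) with hqq
  set w : ℝ≥0∞ := ENNReal.ofReal (8 * m ^ θ) with hw
  have hmθ : 0 < m ^ θ := by positivity
  have hEw : Es + qq * w ≤ w := by
    rw [hEs, hqq, hw, ← ENNReal.ofReal_mul (by positivity), ← ENNReal.ofReal_add (by positivity)
      (by positivity)]
    apply ENNReal.ofReal_le_ofReal
    nlinarith
  have hqsum : ∀ J : ℕ, ∑ i ∈ Finset.range (J * n0), ∑ D ∈ Finset.Icc 1 (J * n0),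
      om ((i + D) / n0 + 1) * ((Vb K n0 k b i * gd α c δ k D) ^ θ *
        ∫⁻ x, ex 0 ((D - 1) * k) x ^ θ ∂(iid ν)) ≤ qq := by
    intro J
    refine (dbl _ _ _ (fun i D => om ((i + D) / n0 + 1)) (fun i => om (i / n0 + 1))
      (fun D => om (D / n0 + 1)) (Vb K n0 k b) (gd α c δ k) _ θ hθ0.le (om_le1 n0) _ _
      (hVt (J * n0)) (hGh (J * n0))).trans ?_
    rw [hqq, ← ENNReal.ofReal_mul (by positivity)]
    apply ENNReal.ofReal_le_ofReal
    have h1 := Zg_le (α := α) hδ hδ1 hc hk hθ0.le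
    calc Z ^ θ * q1 * (gg ^ θ * G1) = (Z ^ θ * gg ^ θ) * (q1 * G1) := by ring
      _ ≤ 1 * (q1 * G1) := mul_le_mul_of_nonneg_right h1 (by positivity)
      _ = q1 * G1 := one_mul _
  have hBH : ∀ J : ℕ, BH ν k n0 J (NX (w0 K (n0 * k) k) k true false)
      (NX (w0 K (n0 * k) k) k true true) (gd α c δ k)
      (fun j => CT (NX (w1 K (n0 * k)) k true false) (TT n0 j)) (Vb K n0 k b) (fun x => x ^ θ) θ
      (fun _ => 0) (fun _ => 0) 1 (ENNReal.ofReal m) om Es qq 0 w w := by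
    intro J
    refine ⟨hk, hn0, ?_, fun a => nx_bd hMO1 K hEnv.b0 hEnv.mo1 _ _ a,
      fun a => nx_bd hMO1 K hEnv.b0 hEnv.mo1 _ _ a, hVf, fun D => ENNReal.ofReal_ne_top,
      hCCT.1 θ hθ0 hθu, hθ0, hθu, measurable_const, measurable_const, ?_, ?_, om_one_le, om_ne,
      om_mono, om_sub, ?_, ?_, hqsum J, ?_, hEw, ?_⟩
    · intro j hj
      exact (hBFM K n0 k (gd α c δ k) hk hn0 hgl J j hj).1
    · intro z e _ _
      simp
    · intro z i D y _ _
      simp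
    · intro p j _
      exact hE.1 j p
    · intro p
      exact hE.2.2 J p
    · simp
    · simpa using hEw
  -- the bound of the weighted sums
  have hmain : ∀ J : ℕ, ∑ j ∈ Finset.range J, om j *
      ∫⁻ x, BX (w1 K (n0 * k)) (n0 * k) j x ^ θ ∂(iid ν) ≤
      ENNReal.ofReal (Nb * na α σ c δ k (n0 * k)) := by
    intro J
    have h1 := hBAS ν k n0 J _ _ _ _ _ _ θ _ _ 1 _ om Es qq 0 w w (hBH J)
      (NX (w0 K (n0 * k) k) k false false) (NX (w0 K (n0 * k) k) k false true)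
      (fun j => BX (w1 K (n0 * k)) (n0 * k) j) (fun a => (hNXm k false false a).1)
      (fun a => hNXm k false true a) (fun a => nx_bd hMO1 K hEnv.b0 hEnv.mo1 _ _ a)
      (fun a => nx_bd hMO1 K hEnv.b0 hEnv.mo1 _ _ a)
      (fun j hj x => (hBFM K n0 k (gd α c δ k) hk hn0 hgl J j hj).2 x)
      (fun i D y _ => by simp)
      (ENNReal.ofReal (4 * n0 * m ^ θ) * ENNReal.ofReal (gg ^ θ * G1)) 0
      (dbl _ _ _ (fun i D => om ((i + D) / n0)) (fun i => om (i / n0))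
        (fun D => om (D / n0 + 1)) (sb (Vb K n0 k b) n0) (gd α c δ k) _ θ hθ0.le (om_le2 n0) _ _
        (hSb.2.2 (J * n0)) (hGh (J * n0)))
      (by simp)
    refine h1.trans ?_
    have h2 := hNN.2 J
    refine (add_le_add_left h2 _).trans ?_
    rw [zero_mul, zero_add, hw, ← ENNReal.ofReal_mul (by positivity),
      ← ENNReal.ofReal_mul (by positivity), ← ENNReal.ofReal_add (by positivity) (by positivity)]
    apply ENNReal.ofReal_le_ofReal
    have hna0 : 0 < na α σ c δ k (n0 * k) := by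
      rw [na_eq hα hP.σ0 hδ hc hk]
      have hk0 : (0 : ℝ) < k := by exact_mod_cast hk
      have hci : 0 < (cq c δ)⁻¹ := inv_pos.mpr (cq_pos hδ hc)
      positivity
    have hC := numC hP hc hk
    have hD := numD hP hc hk
    rw [← hθ, ← hm, ← hgg] at hC
    rw [← hθ, ← hm] at hD
    have h3 : (1 + 16 * δ) ^ 2 * (1 + δ) ^ 4 ≤ 4 := by
      have h4 : (1 + 16 * δ) ^ 2 ≤ 1.8 ^ 2 := pow_le_pow_left₀ (by positivity) (by linarith) 2
      have h5 : (1 + δ) ^ 4 ≤ 1.05 ^ 4 := pow_le_pow_left₀ (by positivity) (by linarith) 4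
      have h6 : (1 + 16 * δ) ^ 2 * (1 + δ) ^ 4 ≤ 1.8 ^ 2 * 1.05 ^ 4 :=
        mul_le_mul h4 h5 (by positivity) (by positivity)
      have h7 : (1.8 : ℝ) ^ 2 * 1.05 ^ 4 ≤ 4 := by norm_num
      linarith
    have h8 : n0 * (m ^ θ * m ^ θ * gg ^ θ) ≤ 4 * na α σ c δ k (n0 * k) :=
      hC.trans (mul_le_mul_of_nonneg_right h3 hna0.le)
    have h9 : 4 * n0 * m ^ θ * (gg ^ θ * G1) * (8 * m ^ θ) ≤
        128 * G1 * na α σ c δ k (n0 * k) := by
      calc 4 * n0 * m ^ θ * (gg ^ θ * G1) * (8 * m ^ θ)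
          = 32 * G1 * (n0 * (m ^ θ * m ^ θ * gg ^ θ)) := by ring
        _ ≤ 32 * G1 * (4 * na α σ c δ k (n0 * k)) :=
            mul_le_mul_of_nonneg_left h8 (by positivity)
        _ = 128 * G1 * na α σ c δ k (n0 * k) := by ring
    have h10 := hP.b1
    rw [← hG1] at h10
    have h11 : δ * na α σ c δ k (n0 * k) + 128 * G1 * na α σ c δ k (n0 * k) ≤
        Nb * na α σ c δ k (n0 * k) := by
      rw [← add_mul]
      refine mul_le_mul_of_nonneg_right ?_ hna0.le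
      nlinarith
    linarith
  have hna0 : 0 < na α σ c δ k (n0 * k) := by
    rw [na_eq hα hP.σ0 hδ hc hk]
    have hk0 : (0 : ℝ) < k := by exact_mod_cast hk
    have hci : 0 < (cq c δ)⁻¹ := inv_pos.mpr (cq_pos hδ hc)
    positivity
  have hNb0 : 0 ≤ Nb := by
    have h10 := hP.b1
    rw [← hG1] at h10
    linarith [mul_nonneg (by norm_num : (0 : ℝ) ≤ 2 ^ 8) hG10]
  have hfin : ∀ f : ℕ → ℝ≥0∞, (∀ j, f j ≤ om j) →
      (∑' j : ℕ, f j * ∫⁻ x, BX (w1 K (n0 * k)) (n0 * k) j x ^ θ ∂(iid ν)) /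
        ENNReal.ofReal (na α σ c δ k (n0 * k)) ≤ ENNReal.ofReal Nb := by
    intro f hf
    apply ENNReal.div_le_of_le_mul
    rw [← ENNReal.ofReal_mul hNb0]
    refine ENNReal.tsum_le_of_sum_range_le fun J => ?_
    refine le_trans (Finset.sum_le_sum fun j _ => ?_) (hmain J)
    exact mul_le_mul' (hf j) le_rfl
  constructor
  · have h1 := hfin (fun _ => 1) om_one_le
    unfold QT
    simpa using h1
  · have h1 := hfin (fun j => (j : ℝ≥0∞)) (fun j => by unfold om; exact le_add_self)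
    unfold QR
    exact h1

end Pool.Agent.H39.CE
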