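import Pool.Agent.H99.CE.Targets

/-!
# Rows BT0, BG0 of crx_modules: common facts
-/

set_option autoImplicit false

open MeasureTheory ProbabilityTheory Filter Topology
open scoped ENNReal
open Pool.Agent.H95 Pool.Agent.H95.Cop Pool.Agent.H96.Cop Pool.Agent.H99.CE

namespace Pool.Agent.H39.CE

theorem nx_bd (hMO1 : T_MO1) {ν : Measure ℝ} [IsProbabilityMeasure ν] (K : PMF ℕ) {n0 k : ℕ}
    {b : ℝ} (hb : 0 ≤ b) (hmo : Mo ν 1 ≤ ENNReal.ofReal (Real.exp b)) (p q : Bool) (a : ℕ) :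
    ∫⁻ x, NX (w0 K (n0 * k) k) k p q a x ∂(iid ν) ≤ Vb K n0 k b a := by
  have h1 : (1 : ℝ≥0∞) ≤ ENNReal.ofReal (Real.exp b) := by
    rw [← ENNReal.ofReal_one]
    exact ENNReal.ofReal_le_ofReal (Real.one_le_exp hb)
  have h2 := hMO1 ν K (n0 * k) k _ h1 hmo p q a
  refine h2.trans (le_of_eq ?_)
  unfold Vb
  congr 1
  rw [← ENNReal.ofReal_pow (Real.exp_pos b).le, ← Real.exp_nat_mul]
  congr 2
  push_cast
  ring

theorem om_mono : Monotone om := by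
  intro r s hrs
  unfold om
  gcongr

theorem om_one_le (r : ℕ) : 1 ≤ om r := by
  unfold om
  exact le_self_add

theorem om_ne (r : ℕ) : om r ≠ ∞ := by
  unfold om
  exact ENNReal.add_ne_top.mpr ⟨by simp, ENNReal.natCast_ne_top r⟩

theorem om_sub (r s : ℕ) : om (r + s) ≤ om r * om s := by
  unfold om
  push_cast
  have : (1 + (r : ℝ≥0∞)) * (1 + (s : ℝ≥0∞)) = 1 + ((r : ℝ≥0∞) + s) + r * s := by ring
  rw [this]
  exact le_self_add

theorem om_le1 (n0 i D : ℕ) : om ((i + D) / n0 + 1) ≤ om (i / n0 + 1) * om (D / n0 + 1) := by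
  refine le_trans (om_mono ?_) (om_sub _ _)
  have h1 : (i + D) / n0 ≤ i / n0 + D / n0 + 1 := by
    rcases Nat.eq_zero_or_pos n0 with h | h
    · subst h; simp
    · rw [Nat.add_div h]
      split_ifs <;> omega
  omega

theorem om_le2 (n0 i D : ℕ) : om ((i + D) / n0) ≤ om (i / n0) * om (D / n0 + 1) := by
  refine le_trans (om_mono ?_) (om_sub _ _)
  have h1 : (i + D) / n0 ≤ i / n0 + D / n0 + 1 := by
    rcases Nat.eq_zero_or_pos n0 with h | h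
    · subst h; simp
    · rw [Nat.add_div h]
      split_ifs <;> omega
  omega

/-- a double sum with a product bound -/
theorem dbl (A B N : ℕ) (ω : ℕ → ℕ → ℝ≥0∞) (w1' w2' f g E : ℕ → ℝ≥0∞) (θ : ℝ) (hθ : 0 ≤ θ)
    (hω : ∀ i D, ω i D ≤ w1' i * w2' D) (X Y : ℝ≥0∞)
    (h1 : ∑ i ∈ Finset.range A, w1' i * f i ^ θ ≤ X)
    (h2 : ∑ D ∈ Finset.Icc B N, w2' D * (g D ^ θ * E D) ≤ Y) :
    ∑ i ∈ Finset.range A, ∑ D ∈ Finset.Icc B N, ω i D * ((f i * g D) ^ θ * E D) ≤ X * Y := by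
  refine le_trans ?_ (mul_le_mul' h1 h2)
  rw [Finset.sum_mul_sum]
  refine Finset.sum_le_sum fun i _ => Finset.sum_le_sum fun D _ => ?_
  rw [ENNReal.mul_rpow_of_nonneg _ _ hθ]
  calc ω i D * (f i ^ θ * g D ^ θ * E D) ≤ (w1' i * w2' D) * (f i ^ θ * g D ^ θ * E D) :=
        mul_le_mul' (hω i D) le_rfl
    _ = w1' i * f i ^ θ * (w2' D * (g D ^ θ * E D)) := by ring

section num

variable {α σ d δ c Nb g0 : ℝ} {n0 k : ℕ}

/-- the factor of the long excursions -/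
noncomputable def gq (α δ c : ℝ) (k : ℕ) : ℝ := (1 + δ) * c / 2 * (k : ℝ) ^ (-(1 + α))

/-- the unit of the neutral masses -/
noncomputable def Zq (α c : ℝ) (k : ℕ) : ℝ := (k : ℝ) ^ (1 + α) / c

theorem gq_pos (hδ : 0 < δ) (hc : 0 < c) (hk : 1 ≤ k) : 0 < gq α δ c k := by
  unfold gq
  have : (0 : ℝ) < k := by exact_mod_cast hk
  positivity

theorem Zq_pos (hc : 0 < c) (hk : 1 ≤ k) : 0 < Zq α c k := by
  unfold Zq
  have : (0 : ℝ) < k := by exact_mod_cast hk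
  positivity

theorem cq_pos (hδ : 0 < δ) (hc : 0 < c) : 0 < cq c δ := by unfold cq; positivity

theorem mb_eq (hδ : 0 < δ) (hc : 0 < c) : mb α c δ k =
    ((1 + 16 * δ) * (1 + δ) ^ 2) * α * (k : ℝ) ^ (1 + α) * (cq c δ)⁻¹ := by
  unfold mb cq
  have : (1 + δ) ≠ 0 := by positivity
  field_simp

theorem mb_pos (hα : 0 < α) (hδ : 0 < δ) (hc : 0 < c) (hk : 1 ≤ k) : 0 < mb α c δ k := by
  unfold mb
  have : (0 : ℝ) < k := by exact_mod_cast hk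
  positivity

theorem mb_le (hα : 0 < α) (hδ : 0 < δ) (hδ1 : δ ≤ 1 / 20) (hc : 0 < c) (hk : 1 ≤ k) :
    mb α c δ k ≤ 4 * α * Zq α c k := by
  unfold mb Zq
  have hk0 : (0 : ℝ) < (k : ℝ) ^ (1 + α) := by
    have : (0 : ℝ) < k := by exact_mod_cast hk
    positivity
  have h1 : 4 * α * ((k : ℝ) ^ (1 + α) / c) = 2 * (2 * α / c) * (k : ℝ) ^ (1 + α) := by
    field_simp; ring
  rw [h1]
  have h2 : 0 < (2 * α / c) * (k : ℝ) ^ (1 + α) := by positivity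
  nlinarith

theorem kk_cancel (hk : 1 ≤ k) : (k : ℝ) ^ (1 + α) * (k : ℝ) ^ (-(1 + α)) = 1 := by
  have : (0 : ℝ) < k := by exact_mod_cast hk
  rw [← Real.rpow_add this]; simp

theorem Zg_le (hδ : 0 < δ) (hδ1 : δ ≤ 1 / 20) (hc : 0 < c) (hk : 1 ≤ k) {θ : ℝ} (hθ : 0 ≤ θ) :
    Zq α c k ^ θ * gq α δ c k ^ θ ≤ 1 := by
  rw [← Real.mul_rpow (Zq_pos hc hk).le (gq_pos hδ hc hk).le]
  refine Real.rpow_le_one (mul_pos (Zq_pos hc hk) (gq_pos hδ hc hk)).le ?_ hθ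
  have h1 : Zq α c k * gq α δ c k = (1 + δ) / 2 * ((k : ℝ) ^ (1 + α) * (k : ℝ) ^ (-(1 + α))) := by
    unfold Zq gq; field_simp
  rw [h1, kk_cancel hk]
  linarith

theorem mg_eq (hδ : 0 < δ) (hc : 0 < c) (hk : 1 ≤ k) :
    mb α c δ k * gq α δ c k = (1 + 16 * δ) * (1 + δ) * α := by
  have h1 : mb α c δ k * gq α δ c k = (1 + 16 * δ) * (1 + δ) * α *
      ((k : ℝ) ^ (1 + α) * (k : ℝ) ^ (-(1 + α))) := by
    unfold mb gq; field_simp
  rw [h1, kk_cancel hk, mul_one]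

theorem mg_le (hα : 0 < α) (hα1 : α ≤ 1 / 4) (hδ : 0 < δ) (hδ1 : δ ≤ 1 / 20) (hc : 0 < c)
    (hk : 1 ≤ k) : mb α c δ k * gq α δ c k ≤ 1 := by
  rw [mg_eq hδ hc hk]
  nlinarith [mul_pos hδ hα, mul_pos (mul_pos hδ hδ) hα]

theorem na_eq (hα : 0 < α) (hσ : 0 < σ) (hδ : 0 < δ) (hc : 0 < c) (hk : 1 ≤ k) :
    na α σ c δ k (n0 * k) = α ^ 2 * n0 * (((k : ℝ) ^ (1 + α)) ^ th α σ *
      ((cq c δ)⁻¹) ^ th α σ) := by
  have hk0 : (0 : ℝ) < k := by exact_mod_cast hk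
  have h1 : (1 + α) * th α σ = 1 + sg α σ := by
    unfold th sg
    have : 1 + α ≠ 0 := by positivity
    field_simp
  have h2 : ((k : ℝ) ^ (1 + α)) ^ th α σ = k * (k : ℝ) ^ sg α σ := by
    rw [← Real.rpow_mul hk0.le, h1, Real.rpow_add hk0, Real.rpow_one]
  have h3 : ((cq c δ)⁻¹) ^ th α σ = cq c δ ^ (-th α σ) := by
    rw [Real.inv_rpow (cq_pos hδ hc).le, Real.rpow_neg (cq_pos hδ hc).le]
  rw [h2, h3]
  unfold na
  push_cast
  ring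

theorem numC (hP : BPar α σ d δ n0 Nb g0) (hc : 0 < c) (hk : 1 ≤ k) :
    n0 * (mb α c δ k ^ th α σ * mb α c δ k ^ th α σ * gq α δ c k ^ th α σ) ≤
      ((1 + 16 * δ) ^ 2 * (1 + δ) ^ 4) * na α σ c δ k (n0 * k) := by
  have hα := hP.α0
  have hδ := hP.δ0
  have hk0 : (0 : ℝ) < k := by exact_mod_cast hk
  have hP0 : 0 < (k : ℝ) ^ (1 + α) := by positivity
  have hci : 0 < (cq c δ)⁻¹ := inv_pos.mpr (cq_pos hδ hc)
  have hm := mb_pos (k := k) hα hδ hc hk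
  have hg := gq_pos (α := α) hδ hc hk
  set θ := th α σ with hθ
  have hθ0 : 0 ≤ θ := by
    have := hP.tl; have := hP.α1
    have h50 : (1 : ℝ) / 2 ^ 50 ≤ 1 := by norm_num
    linarith
  have hθ1 : θ ≤ 1 := by have := hP.tu; linarith
  have h1 : mb α c δ k ^ θ * mb α c δ k ^ θ * gq α δ c k ^ θ =
      ((1 + 16 * δ) ^ 2 * (1 + δ) ^ 3) ^ θ * (α ^ 2) ^ θ *
        (((k : ℝ) ^ (1 + α)) ^ θ * ((cq c δ)⁻¹) ^ θ) := by
    rw [← Real.mul_rpow hm.le hm.le, ← Real.mul_rpow (by positivity) hg.le,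
      ← Real.mul_rpow hP0.le hci.le, ← Real.mul_rpow (by positivity) (by positivity),
      ← Real.mul_rpow (by positivity) (by positivity)]
    congr 1
    have h2 : mb α c δ k * mb α c δ k * gq α δ c k = mb α c δ k * ((1 + 16 * δ) * (1 + δ) * α) := by
      rw [mul_assoc, mg_eq hδ hc hk]
    rw [h2, mb_eq hδ hc]
    ring
  rw [h1, na_eq hα hP.σ0 hδ hc hk]
  have h3 : (α ^ 2) ^ θ ≤ (1 + δ) * α ^ 2 := by
    have h4 : (α ^ 2) ^ θ = α ^ (2 * θ - 2) * α ^ 2 := by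
      rw [← Real.rpow_natCast α 2, ← Real.rpow_mul hα.le, ← Real.rpow_add hα]
      congr 1; push_cast; ring
    rw [h4]
    exact mul_le_mul_of_nonneg_right hP.a4 (by positivity)
  have h5 : ((1 + 16 * δ) ^ 2 * (1 + δ) ^ 3) ^ θ ≤ (1 + 16 * δ) ^ 2 * (1 + δ) ^ 3 := by
    have h6 : 1 ≤ (1 + 16 * δ) ^ 2 * (1 + δ) ^ 3 := by
      have h7 : 1 ≤ (1 + 16 * δ) ^ 2 := one_le_pow₀ (by linarith)
      have h8 : 1 ≤ (1 + δ) ^ 3 := one_le_pow₀ (by linarith)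
      nlinarith
    calc _ ≤ ((1 + 16 * δ) ^ 2 * (1 + δ) ^ 3) ^ (1 : ℝ) := Real.rpow_le_rpow_of_exponent_le h6 hθ1
      _ = _ := Real.rpow_one _
  have h9 : 0 ≤ n0 * (((k : ℝ) ^ (1 + α)) ^ θ * ((cq c δ)⁻¹) ^ θ) := by positivity
  calc n0 * (((1 + 16 * δ) ^ 2 * (1 + δ) ^ 3) ^ θ * (α ^ 2) ^ θ *
        (((k : ℝ) ^ (1 + α)) ^ θ * ((cq c δ)⁻¹) ^ θ))
      = (((1 + 16 * δ) ^ 2 * (1 + δ) ^ 3) ^ θ * (α ^ 2) ^ θ) *
        (n0 * (((k : ℝ) ^ (1 + α)) ^ θ * ((cq c δ)⁻¹) ^ θ)) := by ring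
    _ ≤ (((1 + 16 * δ) ^ 2 * (1 + δ) ^ 3) * ((1 + δ) * α ^ 2)) *
        (n0 * (((k : ℝ) ^ (1 + α)) ^ θ * ((cq c δ)⁻¹) ^ θ)) := by
        refine mul_le_mul_of_nonneg_right ?_ h9
        exact mul_le_mul h5 h3 (by positivity) (by positivity)
    _ = _ := by ring

theorem numD (hP : BPar α σ d δ n0 Nb g0) (hc : 0 < c) (hk : 1 ≤ k) :
    4 * (n0 * mb α c δ k) ^ th α σ ≤ δ * na α σ c δ k (n0 * k) := by
  have hα := hP.α0
  have hδ := hP.δ0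
  have hδ1 := hP.δ1
  have hk0 : (0 : ℝ) < k := by exact_mod_cast hk
  have hn0 : (0 : ℝ) < n0 := by
    have := hP.n2
    have h1 : 0 < n0 := by omega
    exact_mod_cast h1
  have hP0 : 0 < (k : ℝ) ^ (1 + α) := by positivity
  have hci : 0 < (cq c δ)⁻¹ := inv_pos.mpr (cq_pos hδ hc)
  have hm := mb_pos (k := k) hα hδ hc hk
  set θ := th α σ with hθ
  have hθ0 : 0 ≤ θ := by
    have := hP.tl; have := hP.α1
    have h50 : (1 : ℝ) / 2 ^ 50 ≤ 1 := by norm_num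
    linarith
  have hθ1 : θ ≤ 1 := by have := hP.tu; linarith
  rw [Real.mul_rpow hn0.le hm.le, mb_eq hδ hc, Real.mul_rpow (by positivity) hci.le,
    Real.mul_rpow (by positivity) hP0.le, Real.mul_rpow (by positivity) hα.le,
    na_eq hα hP.σ0 hδ hc hk]
  set Y := ((k : ℝ) ^ (1 + α)) ^ θ * ((cq c δ)⁻¹) ^ θ with hY
  have hY0 : 0 ≤ Y := by positivity
  have h1 : (n0 : ℝ) ^ θ = n0 * (n0 : ℝ) ^ (θ - 1) := by
    rw [Real.rpow_sub_one hn0.ne']; field_simp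
  have h2 : α ^ θ ≤ 2 * α := by
    have h3 : α ^ θ = α ^ (θ - 1) * α := by
      rw [Real.rpow_sub_one hα.ne']; field_simp
    have h4 : α ^ (2 * θ - 2) = α ^ (θ - 1) * α ^ (θ - 1) := by
      rw [← Real.rpow_add hα]; congr 1; ring
    have h5 := hP.a4
    rw [← hθ, h4] at h5
    have h6 : 0 < α ^ (θ - 1) := by positivity
    have h7 : α ^ (θ - 1) ≤ 2 := by nlinarith
    rw [h3]
    exact mul_le_mul_of_nonneg_right h7 hα.le
  have h8 : ((1 + 16 * δ) * (1 + δ) ^ 2) ^ θ ≤ 2 := by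
    have h9 : 1 ≤ (1 + 16 * δ) * (1 + δ) ^ 2 := by
      have h7 : 1 ≤ (1 + 16 * δ) := by linarith
      have h8 : 1 ≤ (1 + δ) ^ 2 := one_le_pow₀ (by linarith)
      nlinarith
    have h10 : ((1 + 16 * δ) * (1 + δ) ^ 2) ^ θ ≤ ((1 + 16 * δ) * (1 + δ) ^ 2) ^ (1 : ℝ) :=
      Real.rpow_le_rpow_of_exponent_le h9 hθ1
    rw [Real.rpow_one] at h10
    have h11 : (1 + δ) ^ 2 ≤ 1.1025 := by nlinarith
    have h12 : (1 + 16 * δ) * (1 + δ) ^ 2 ≤ 1.8 * 1.1025 :=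
      mul_le_mul (by linarith) h11 (by positivity) (by norm_num)
    have h13 : (1.8 : ℝ) * 1.1025 ≤ 2 := by norm_num
    linarith
  have h14 := hP.a6
  rw [← hθ] at h14
  have h15 : 16 * (n0 : ℝ) ^ (θ - 1) * α ≤ δ * α ^ 2 := by
    rw [div_le_iff₀ hα] at h14
    nlinarith
  calc 4 * ((n0 : ℝ) ^ θ * (((1 + 16 * δ) * (1 + δ) ^ 2) ^ θ * α ^ θ *
        ((k : ℝ) ^ (1 + α)) ^ θ * ((cq c δ)⁻¹) ^ θ))
      = (4 * (n0 : ℝ) ^ (θ - 1) * (((1 + 16 * δ) * (1 + δ) ^ 2) ^ θ * α ^ θ)) * (n0 * Y) := by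
        rw [h1, hY]; ring
    _ ≤ (4 * (n0 : ℝ) ^ (θ - 1) * (2 * (2 * α))) * (n0 * Y) := by
        refine mul_le_mul_of_nonneg_right ?_ (by positivity)
        refine mul_le_mul_of_nonneg_left ?_ (by positivity)
        exact mul_le_mul h8 h2 (by positivity) (by norm_num)
    _ = (16 * (n0 : ℝ) ^ (θ - 1) * α) * (n0 * Y) := by ring
    _ ≤ (δ * α ^ 2) * (n0 * Y) := mul_le_mul_of_nonneg_right h15 (by positivity)
    _ = _ := by ring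

end num

end Pool.Agent.H39.CE
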