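import Pool.Agent.H99.CE.Targets

/-!
# Row PRB of crx_modules: the conditions of the base hold for small `α`
-/

set_option autoImplicit false

open MeasureTheory ProbabilityTheory Filter Topology
open scoped ENNReal
open Pool.Agent.H95 Pool.Agent.H95.Cop Pool.Agent.H96.Cop Pool.Agent.H99.CE

namespace Pool.Agent.H39.CE

theorem tendsto_Lg : Tendsto Lg (𝓝[>] (0 : ℝ)) atTop := by
  have h1 : Tendsto (fun x : ℝ => x⁻¹) (𝓝[>] (0 : ℝ)) atTop := tendsto_inv_nhdsGT_zero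
  have h2 := Real.tendsto_log_atTop.comp h1
  refine h2.congr fun x => ?_
  simp [Lg, one_div]

theorem tendsto_aL (n : ℕ) : Tendsto (fun α : ℝ => α * Lg α ^ n) (𝓝[>] (0 : ℝ)) (𝓝 0) := by
  have h1 := (Real.tendsto_pow_mul_exp_neg_atTop_nhds_zero n).comp tendsto_Lg
  refine h1.congr' ?_
  filter_upwards [self_mem_nhdsWithin] with x hx
  have hx0 : 0 < x := hx
  simp only [Function.comp_apply, Lg]
  rw [one_div, Real.log_inv, neg_neg, Real.exp_log hx0]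
  ring

theorem th_lo {α σ : ℝ} (hα : 0 < α) (hσ : 0 < σ) : 1 - α ≤ th α σ := by
  unfold th
  have h1α : 0 < 1 + α := by linarith
  have h1 : 1 - α ≤ 1 / (1 + α) := by
    rw [le_div_iff₀ h1α]; nlinarith
  have h2 : 0 ≤ σ * α ^ 2 := by positivity
  linarith

theorem th_hi {α σ : ℝ} (hα : 0 < α) (hαq : α ≤ 1 / 4) (hσ1 : σ ≤ 1) : th α σ ≤ 1 - α / 2 := by
  unfold th
  have h1α : 0 < 1 + α := by linarith
  have h1 : 1 / (1 + α) ≤ 1 - α + α ^ 2 := by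
    rw [div_le_iff₀ h1α]
    have h3 : 0 < α ^ 3 := by positivity
    have h4 : (1 - α + α ^ 2) * (1 + α) = 1 + α ^ 3 := by ring
    rw [h4]; linarith
  have h2 : σ * α ^ 2 ≤ 1 * α ^ 2 := mul_le_mul_of_nonneg_right hσ1 (sq_nonneg α)
  have h5 : α ^ 2 ≤ α / 4 := by
    rw [sq]
    have := mul_le_mul_of_nonneg_left hαq hα.le
    linarith
  linarith

theorem kp_lo {α σ d δ : ℝ} (hα : 0 < α) (hδ : 0 < δ) (hδ1 : δ ≤ 1 / 20) (hdσ : 1 ≤ d - σ)
    (hth : 1 / 2 ≤ th α σ) : δ / 8 * α ≤ kp α σ d δ := by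
  unfold kp
  have h1 : (1 : ℝ) / 2 ≤ 1 - δ := by linarith
  have h2 : δ / 4 * α ≤ 2 * (δ / 4) * α * th α σ := by
    have h0 : 0 ≤ 2 * (δ / 4) * α := by positivity
    have := mul_le_mul_of_nonneg_left hth h0
    linarith
  have h3 : 2 * (δ / 4) * α * th α σ ≤ 2 * (δ / 4) * α * th α σ * (d - σ) := by
    have h00 : 0 < th α σ := by linarith
    have h0 : 0 ≤ 2 * (δ / 4) * α * th α σ := by positivity
    have := mul_le_mul_of_nonneg_left hdσ h0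
    linarith
  have h4 : 0 ≤ 2 * (δ / 4) * α * th α σ * (d - σ) :=
    le_trans (by positivity) (h2.trans h3)
  have h5 := mul_le_mul_of_nonneg_right h1 h4
  linarith

theorem kp_hi {α σ d δ : ℝ} (hα : 0 < α) (hδ : 0 < δ) (hδ1 : δ ≤ 1 / 20) (hdσ : 0 ≤ d - σ)
    (hth0 : 0 ≤ th α σ) (hth1 : th α σ ≤ 1) (h1 : α * (d - σ) ≤ 1) : kp α σ d δ ≤ 1 := by
  unfold kp
  have h3 : 0 ≤ α * (d - σ) := mul_nonneg hα.le hdσ
  have h4 : 2 * (δ / 4) * th α σ ≤ 1 := by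
    have h0 : 2 * (δ / 4) * th α σ ≤ 2 * (δ / 4) * 1 :=
      mul_le_mul_of_nonneg_left hth1 (by positivity)
    linarith
  have h2 : 2 * (δ / 4) * α * th α σ * (d - σ) ≤ 1 := by
    calc 2 * (δ / 4) * α * th α σ * (d - σ) = (2 * (δ / 4) * th α σ) * (α * (d - σ)) := by ring
      _ ≤ 1 * 1 := mul_le_mul h4 h1 h3 (by norm_num)
      _ = 1 := by norm_num
  have h5 : 0 ≤ 2 * (δ / 4) * α * th α σ * (d - σ) := by positivity
  have h6 : (1 - δ) * (2 * (δ / 4) * α * th α σ * (d - σ)) ≤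
      1 * (2 * (δ / 4) * α * th α σ * (d - σ)) := mul_le_mul_of_nonneg_right (by linarith) h5
  linarith

theorem A2 {α L δ t n ln : ℝ} (hδ : 0 < δ) (hα : 0 < α) (hL0 : 0 < L) (hn : 0 < n)
    (hln : Real.log n = ln)
    (hlo : L ^ 2 ≤ ln * α) (ht : 1 / 2 ≤ t) (hLL : 4 * L ≤ L ^ 2)
    (hL : 2 * Real.log (100 / δ) ≤ L) : n ^ (-(α * t)) ≤ δ / 100 := by
  rw [Real.rpow_def_of_pos hn, hln]
  have h3 : L ^ 2 * (1 / 2) ≤ ln * α * t :=
    mul_le_mul hlo ht (by norm_num) (le_trans (sq_nonneg L) hlo)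
  have h5 : ln * -(α * t) = -(ln * α * t) := by ring
  have h1 : ln * -(α * t) ≤ -Real.log (100 / δ) := by
    rw [h5]; linarith
  calc Real.exp (ln * -(α * t)) ≤ Real.exp (-Real.log (100 / δ)) := Real.exp_le_exp.mpr h1
    _ = δ / 100 := by
        rw [Real.exp_neg, Real.exp_log (by positivity)]
        field_simp

theorem A3 {α L δ E n kq : ℝ} (hδ : 0 < δ) (hα : 0 < α) (hE : E = L ^ 2 / α)
    (hexp : Real.exp (-L) = α) (hE2 : 2 * L ^ 2 ≤ L ^ 2 / α) (hLL : 4 * L ≤ L ^ 2)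
    (hL : Real.log (80 / δ) ≤ L) (hL0 : 0 < L) (hn : Real.exp E ≤ n) (hk : δ / 8 * α ≤ kq) :
    10 ≤ n * kq := by
  have h1 : Real.exp (Real.log (80 / δ)) ≤ Real.exp (E - L) := by
    apply Real.exp_le_exp.mpr
    rw [hE]; linarith
  have hEp := Real.exp_pos E
  rw [Real.exp_log (by positivity), sub_eq_add_neg, Real.exp_add, hexp, div_le_iff₀ hδ] at h1
  have h4 : Real.exp E * (δ / 8 * α) = Real.exp E * α * δ / 8 := by ring
  calc (10 : ℝ) ≤ Real.exp E * (δ / 8 * α) := by rw [h4]; linarith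
    _ ≤ n * kq := mul_le_mul hn hk (by positivity) (by linarith)

theorem A4 {α L δ t : ℝ} (hδ : 0 < δ) (hα : 0 < α) (hexp : Real.exp (-L) = α) (hL0 : 0 < L)
    (ht : 1 - α ≤ t) (hA : α * L ≤ Real.log (1 + δ) / 2) : α ^ (2 * t - 2) ≤ 1 + δ := by
  rw [Real.rpow_def_of_pos hα]
  have h1 : Real.log α = -L := by
    rw [← hexp, Real.log_exp]
  rw [h1]
  have h4 : L * (1 - t) ≤ L * α := mul_le_mul_of_nonneg_left (by linarith) hL0.le
  have h5 : -L * (2 * t - 2) = 2 * (L * (1 - t)) := by ring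
  calc Real.exp (-L * (2 * t - 2)) ≤ Real.exp (Real.log (1 + δ)) := by
        apply Real.exp_le_exp.mpr
        rw [h5]; linarith
    _ = 1 + δ := Real.exp_log (by linarith)

theorem B7 {L C0 lk : ℝ} (hL1 : 1 ≤ L) (hC0 : 0 ≤ C0) (hlk : lk ≤ L + C0) :
    6 + 2 * lk ≤ (8 + 2 * C0) * L := by
  have h8 : C0 ≤ C0 * L := by
    have := mul_le_mul_of_nonneg_left hL1 hC0
    linarith
  have h9 : (8 + 2 * C0) * L = 8 * L + 2 * (C0 * L) := by ring
  rw [h9]; linarith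

theorem A5 {α L δ C0 ln lk : ℝ} (hα0 : 0 < α) (hα1 : α ≤ 1) (hL1 : 1 ≤ L) (hL2 : 1 ≤ L ^ 2)
    (hln0 : 0 ≤ ln) (hln : ln ≤ L ^ 2 / α + 1) (hlk0 : 0 ≤ lk) (hlk : lk ≤ L + C0)
    (hC0 : 0 ≤ C0) (hA : α * L ^ 3 ≤ δ / (128 * 2 ^ 25 * (8 + 2 * C0))) :
    128 * ((64 * α + 2 ^ 23 * α ^ 2 * (1 + ln)) * (6 + 2 * lk)) ≤ δ := by
  have h1 : α ^ 2 * (1 + ln) ≤ 3 * (α * L ^ 2) := by
    have h2 : α ^ 2 * (1 + ln) ≤ α ^ 2 * (2 + L ^ 2 / α) :=
      mul_le_mul_of_nonneg_left (by linarith) (by positivity)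
    have h3 : α ^ 2 * (2 + L ^ 2 / α) = 2 * α ^ 2 + α * L ^ 2 := by
      field_simp
    have h4 : α ^ 2 ≤ α * L ^ 2 := by
      rw [sq]; exact mul_le_mul_of_nonneg_left (by linarith) hα0.le
    linarith
  have h5 : 64 * α + 2 ^ 23 * α ^ 2 * (1 + ln) ≤ 2 ^ 25 * (α * L ^ 2) := by
    have h6 : α ≤ α * L ^ 2 := by
      have := mul_le_mul_of_nonneg_left hL2 hα0.le
      linarith
    have h6' : 2 ^ 23 * α ^ 2 * (1 + ln) ≤ 2 ^ 23 * (3 * (α * L ^ 2)) := by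
      rw [mul_assoc]; exact mul_le_mul_of_nonneg_left h1 (by norm_num)
    linarith
  have h7 := B7 hL1 hC0 hlk
  have h9 : (64 * α + 2 ^ 23 * α ^ 2 * (1 + ln)) * (6 + 2 * lk) ≤
      (2 ^ 25 * (α * L ^ 2)) * ((8 + 2 * C0) * L) :=
    mul_le_mul h5 h7 (by positivity) (by positivity)
  have h10 : 128 * ((2 ^ 25 * (α * L ^ 2)) * ((8 + 2 * C0) * L)) ≤ δ := by
    have h11 : 0 < 128 * 2 ^ 25 * (8 + 2 * C0) := by positivity
    have h12 := (le_div_iff₀ h11).mp hA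
    calc 128 * ((2 ^ 25 * (α * L ^ 2)) * ((8 + 2 * C0) * L))
        = (α * L ^ 3) * (128 * 2 ^ 25 * (8 + 2 * C0)) := by ring
      _ ≤ δ := h12
  linarith

theorem A6 {α L δ t n ln : ℝ} (hδ : 0 < δ) (hα : 0 < α) (hexp : Real.exp (-L) = α) (hL0 : 0 < L)
    (hn : 0 < n) (hln : Real.log n = ln) (hln0 : 0 ≤ ln) (hlo : L ^ 2 ≤ ln * α)
    (ht : t ≤ 1 - α / 2) (hLL : 4 * L ≤ L ^ 2) (hL : Real.log (16 / δ) ≤ L) :
    16 * n ^ (t - 1) / α ≤ δ := by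
  rw [Real.rpow_def_of_pos hn, hln, div_le_iff₀ hα]
  have h3 : ln * (t - 1) ≤ ln * (-(α / 2)) := mul_le_mul_of_nonneg_left (by linarith) hln0
  have h3' : ln * (-(α / 2)) = -(ln * α / 2) := by ring
  rw [h3'] at h3
  have h4 : ln * (t - 1) ≤ -Real.log (16 / δ) + -L := by linarith
  have h5 := Real.exp_le_exp.mpr h4
  rw [Real.exp_add, hexp, Real.exp_neg, Real.exp_log (by positivity)] at h5
  calc 16 * Real.exp (ln * (t - 1)) ≤ 16 * ((16 / δ)⁻¹ * α) := by linarith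
    _ = δ * α := by field_simp

theorem B1 {L C0 lk : ℝ} (hL1 : 1 ≤ L) (hC0 : 0 ≤ C0) (hlk : lk ≤ L + C0)
    (hL : 2 ^ 8 * (8 + 2 * C0) + 1 ≤ L) : 2 ^ 8 * (6 + 2 * lk) + 1 ≤ L ^ 2 := by
  have h1 := B7 hL1 hC0 hlk
  have h2 : (2 ^ 8 * (8 + 2 * C0) + 1) * L ≤ L * L :=
    mul_le_mul_of_nonneg_right hL (by linarith)
  have h3 : (2 ^ 8 * (8 + 2 * C0) + 1) * L = 2 ^ 8 * ((8 + 2 * C0) * L) + L := by ring
  rw [h3] at h2
  rw [sq]
  linarith

theorem logk {α δ κ L : ℝ} (hα0 : 0 < α) (hδ : 0 < δ) (hkl : δ / 8 * α ≤ κ)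
    (hL : L = Real.log (1 / α)) : Real.log (1 / κ) ≤ L + Real.log (8 / δ) := by
  have hκ : 0 < κ := lt_of_lt_of_le (by positivity) hkl
  have h1 : 1 / κ ≤ 1 / (δ / 8 * α) := one_div_le_one_div_of_le (by positivity) hkl
  have h2 := Real.log_le_log (by positivity) h1
  have h3 : Real.log (1 / (δ / 8 * α)) = L + Real.log (8 / δ) := by
    rw [hL, ← Real.log_mul (by positivity) (by positivity)]
    congr 1
    field_simp
  linarith

theorem pf_PRB : T_PRB := by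
  intro σ d δ g0 hσ hσ1 hdσ hδ hδ1 hb3
  set C0 : ℝ := Real.log (8 / δ) with hC0
  have hC0n : 0 ≤ C0 := Real.log_nonneg (by rw [le_div_iff₀ hδ]; linarith)
  have ev1 : ∀ᶠ α in 𝓝[>] (0 : ℝ), 0 < α := self_mem_nhdsWithin
  have evs : ∀ r : ℝ, 0 < r → ∀ᶠ α in 𝓝[>] (0 : ℝ), α ≤ r := by
    intro r hr
    exact (mem_nhdsWithin_of_mem_nhds (Iic_mem_nhds hr))
  have evL : ∀ r : ℝ, ∀ᶠ α in 𝓝[>] (0 : ℝ), r ≤ Lg α := fun r => tendsto_Lg.eventually_ge_atTop r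
  have evA : ∀ (n : ℕ) (r : ℝ), 0 < r → ∀ᶠ α in 𝓝[>] (0 : ℝ), α * Lg α ^ n ≤ r := by
    intro n r hr
    filter_upwards [(tendsto_aL n).eventually_lt_const hr] with α hα
    exact hα.le
  have hlog1 : 0 < Real.log (1 + δ) := Real.log_pos (by linarith)
  filter_upwards [ev1, evs (1 / 2 ^ 50) (by positivity), evs (δ / 5) (by positivity),
    evs (1 / (d - σ)) (by positivity), evL 4, evL (2 * Real.log (100 / δ)),
    evL (Real.log (80 / δ)), evL (Real.log (16 / δ)), evL (2 ^ 8 * (8 + 2 * C0) + 1),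
    evA 1 (Real.log (1 + δ) / 2) (by positivity),
    evA 3 (δ / (128 * 2 ^ 25 * (8 + 2 * C0))) (by positivity)]
    with α hα0 hα50 hαδ hαd hL4 hLa hLb hLc hLd hA1 hA3
  clear ev1 evs evL evA
  set L : ℝ := Lg α with hL
  have hαq : α ≤ 1 / 4 := hα50.trans (by norm_num)
  have hL1 : 1 ≤ L := le_trans (by norm_num) hL4
  have hL0 : 0 < L := lt_of_lt_of_le one_pos hL1
  have hLexp : Real.exp (-L) = α := by
    rw [hL, Lg, one_div, Real.log_inv, neg_neg, Real.exp_log hα0]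
  have hLL4 : 4 * L ≤ L ^ 2 := by
    rw [sq]; exact mul_le_mul_of_nonneg_right hL4 hL0.le
  have hL2 : 1 ≤ L ^ 2 := one_le_pow₀ hL1
  have htl := th_lo (σ := σ) hα0 hσ
  have htu := th_hi (σ := σ) hα0 hαq hσ1
  generalize hα50' : (1 : ℝ) / 2 ^ 50 = r50 at hα50
  have hth : 1 / 2 ≤ th α σ := le_trans (by linarith only [hαq]) htl
  have hth1 : th α σ ≤ 1 := le_trans htu (by linarith only [hα0])
  have hkl := kp_lo (d := d) hα0 hδ hδ1 hdσ hth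
  have hku := kp_hi (d := d) hα0 hδ hδ1 (by linarith only [hdσ]) (by linarith only [hth]) hth1
    ((le_div_iff₀ (by linarith only [hdσ])).mp hαd)
  have hk0 : 0 < kp α σ d δ := lt_of_lt_of_le (by positivity) hkl
  have hlogk : Real.log (1 / kp α σ d δ) ≤ L + C0 := logk hα0 hδ hkl rfl
  have hlogk0 : 0 ≤ Real.log (1 / kp α σ d δ) := Real.log_nonneg (by
    rw [le_div_iff₀ hk0]; linarith only [hku])
  -- n0
  set n0 : ℕ := n0f α with hn0
  have hE2 : 2 * L ^ 2 ≤ L ^ 2 / α := by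
    rw [le_div_iff₀ hα0]
    have h1 : L ^ 2 * α ≤ L ^ 2 * (1 / 4) := mul_le_mul_of_nonneg_left hαq (sq_nonneg L)
    have h2 : 2 * L ^ 2 * α = 2 * (L ^ 2 * α) := by ring
    rw [h2]
    linarith only [sq_nonneg L, h1]
  have hE1 : 1 ≤ L ^ 2 / α := by linarith only [hL2, hE2]
  have hnlo : Real.exp (L ^ 2 / α) ≤ n0 := Nat.le_ceil _
  have hexp1 : (1 : ℝ) ≤ Real.exp (L ^ 2 / α) := Real.one_le_exp (by positivity)
  have hnhi : (n0 : ℝ) ≤ 2 * Real.exp (L ^ 2 / α) := by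
    have : (n0 : ℝ) < Real.exp (L ^ 2 / α) + 1 := Nat.ceil_lt_add_one (Real.exp_pos _).le
    linarith only [this, hexp1]
  have hnpos : (0 : ℝ) < n0 := lt_of_lt_of_le (Real.exp_pos _) hnlo
  have hlnlo : L ^ 2 / α ≤ Real.log n0 := by
    rw [Real.le_log_iff_exp_le hnpos]; exact hnlo
  have hlnlo' : L ^ 2 ≤ Real.log n0 * α := by
    rwa [div_le_iff₀ hα0] at hlnlo
  have hlnhi : Real.log n0 ≤ L ^ 2 / α + 1 := by
    have h1 := Real.log_le_log hnpos hnhi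
    rw [Real.log_mul (by norm_num) (Real.exp_pos _).ne', Real.log_exp] at h1
    have h2 : Real.log 2 ≤ 1 := by
      have := Real.log_two_lt_d9; linarith only [this]
    linarith only [h1, h2]
  have hln0 : 0 ≤ Real.log n0 := le_trans (by positivity) hlnlo
  refine ⟨hα0, by rw [hα50']; exact hα50, by linarith only [hαδ], hσ, hδ, hδ1, htl, htu, hdσ, hku,
    ?_, ?_, A2 hδ hα0 hL0 hnpos rfl hlnlo' hth hLL4 hLa,
    A3 hδ hα0 rfl hLexp hE2 hLL4 hLb hL0 hnlo hkl,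
    A4 hδ hα0 hLexp hL0 htl (by simpa using hA1),
    A5 hα0 (by linarith only [hαq]) hL1 hL2 hln0 hlnhi hlogk0 hlogk hC0n hA3,
    A6 hδ hα0 hLexp hL0 hnpos rfl hln0 hlnlo' htu hLL4 hLc, B1 hL1 hC0n hlogk hLd, hb3⟩
  · -- n2
    have h1 : (2 : ℝ) < n0 := by
      have h2 : Real.exp 1 ≤ Real.exp (L ^ 2 / α) := Real.exp_le_exp.mpr hE1
      have h3 := Real.exp_one_gt_d9
      linarith only [h2, h3, hnlo]
    exact_mod_cast h1.le
  · -- a1
    have h1 : Real.log n0 ≤ n0 :=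
      (Real.log_le_sub_one_of_pos hnpos).trans (by linarith only)
    have h2 : α ≤ δ := by linarith only [hαδ, hδ]
    calc α * Real.log n0 ≤ δ * Real.log n0 := mul_le_mul_of_nonneg_right h2 hln0
      _ ≤ δ * n0 := mul_le_mul_of_nonneg_left h1 hδ.le

end Pool.Agent.H39.CE
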